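import Pool.Agent.Helper69.LW.Basic

/-!
# MP_687a20_mp, module GG : the component along the ground state
-/

open MeasureTheory Set Filter Topology
open scoped ContDiff

namespace LeakyWire

variable {f u w : ℝ × ℝ → ℝ}

theorem slice_cont (hf : Test f) (s : ℝ) : Continuous (fun t => f (s, t)) :=
  hf.cont.comp (by fun_prop)

theorem slice_cont' (hf : Test f) (t : ℝ) : Continuous (fun s => f (s, t)) :=
  hf.cont.comp (by fun_prop)

theorem slice_gs_integrable (hf : Test f) (s : ℝ) : Integrable (fun t => f (s, t) * gs t) := by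
  obtain ⟨R, hR0, hR⟩ := hf.bdd
  refine (gs_integrable.const_mul R).mono'
    ((slice_cont hf s).mul gs_cont).aestronglyMeasurable (Eventually.of_forall fun t => ?_)
  rw [Real.norm_eq_abs, abs_mul, abs_of_pos (gs_pos t)]
  exact mul_le_mul_of_nonneg_right (hR _) (gs_pos t).le

theorem slice_gs_cont (hf : Test f) : Continuous (fun s => ∫ t, f (s, t) * gs t) := by
  obtain ⟨R, hR0, hR⟩ := hf.bdd
  refine continuous_of_dominated (bound := fun t => R * gs t)
    (fun s => ((slice_cont hf s).mul gs_cont).aestronglyMeasurable)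
    (fun s => Eventually.of_forall fun t => ?_) (gs_integrable.const_mul R)
    (Eventually.of_forall fun t => (slice_cont' hf t).mul continuous_const)
  rw [Real.norm_eq_abs, abs_mul, abs_of_pos (gs_pos t)]
  exact mul_le_mul_of_nonneg_right (hR _) (gs_pos t).le

theorem slice_gs_deriv (hf : Test f) (s : ℝ) :
    HasDerivAt (fun s => ∫ t, f (s, t) * gs t) (∫ t, d1 f (s, t) * gs t) s := by
  obtain ⟨R, hR0, hR⟩ := hf.test_d1.bdd
  refine (hasDerivAt_integral_of_dominated_loc_of_deriv_le (F := fun s t => f (s, t) * gs t)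
    (F' := fun s t => d1 f (s, t) * gs t) (bound := fun t => R * gs t) (s := univ)
    univ_mem (Eventually.of_forall fun s => ((slice_cont hf s).mul gs_cont).aestronglyMeasurable)
    (slice_gs_integrable hf s) ((slice_cont hf.test_d1 s).mul gs_cont).aestronglyMeasurable
    (Eventually.of_forall fun t s _ => ?_) (gs_integrable.const_mul R)
    (Eventually.of_forall fun t s _ => ?_)).2
  · rw [Real.norm_eq_abs, abs_mul, abs_of_pos (gs_pos t)]
    exact mul_le_mul_of_nonneg_right (hR _) (gs_pos t).le
  · exact (hasDerivAt_1 hf.diff s t).mul_const (gs t)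

theorem gg_deriv (hu : Test u) (s : ℝ) :
    HasDerivAt (gg u) (1 / 2 * ∫ t, d1 u (s, t) * gs t) s :=
  (slice_gs_deriv hu s).const_mul (1 / 2)

theorem gg_deriv_eq (hu : Test u) : deriv (gg u) = gg (d1 u) := by
  funext s
  exact (gg_deriv hu s).deriv

theorem gg_cont (hu : Test u) : Continuous (gg u) :=
  continuous_const.mul (slice_gs_cont hu)

theorem gg_supp (hu : Test u) : HasCompactSupport (gg u) := by
  obtain ⟨L, hL0, hL⟩ := hu.box
  refine HasCompactSupport.intro (isCompact_Icc (a := -L) (b := L)) fun s hs => ?_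
  rw [mem_Icc, ← abs_le] at hs
  have h1 : L < |s| := not_le.mp hs
  unfold gg
  have h2 : (fun t => u (s, t) * gs t) = fun _ => 0 := by
    funext t
    rw [hL (s, t) (Or.inl h1), zero_mul]
  rw [h2, integral_zero, mul_zero]

theorem gg_smooth (hu : Test u) : ContDiff ℝ 1 (gg u) ∧ HasCompactSupport (gg u) := by
  refine ⟨?_, gg_supp hu⟩
  rw [contDiff_one_iff_deriv]
  refine ⟨fun s => (gg_deriv hu s).differentiableAt, ?_⟩
  rw [gg_deriv_eq hu]
  exact gg_cont hu.test_d1

theorem nice_vv (hu : Test u) : Nice (vv u) :=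
  hu.nice.sub (nice_gs (gg_cont hu) (gg_supp hu))

theorem nice_vs (hu : Test u) : Nice (vs u) := by
  have h1 := hu.test_d1.nice.sub (nice_gs (gg_cont hu.test_d1) (gg_supp hu.test_d1))
  rw [← gg_deriv_eq hu] at h1
  exact h1

theorem vv_hasDerivAt (hu : Test u) (s t : ℝ) :
    HasDerivAt (fun s => vv u (s, t)) (vs u (s, t)) s := by
  have h1 := (hasDerivAt_1 hu.diff s t).sub (((gg_deriv hu s).mul_const (gs t)))
  have h2 : vs u (s, t) = d1 u (s, t) - (1 / 2 * ∫ t, d1 u (s, t) * gs t) * gs t := by
    unfold vs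
    rw [(gg_deriv hu s).deriv]
  rw [h2]
  exact h1

theorem orth_aux (hf : Test f) (s : ℝ) : ∫ t, (f (s, t) - gg f s * gs t) * gs t = 0 := by
  have h1 : (fun t => (f (s, t) - gg f s * gs t) * gs t) =
      fun t => f (s, t) * gs t - gg f s * gs t ^ 2 := by
    funext t; ring
  have h2 : Integrable (fun t => gs t ^ 2) := by
    refine gs_integrable.mono' (gs_cont.pow 2).aestronglyMeasurable (Eventually.of_forall fun t => ?_)
    rw [Real.norm_eq_abs, abs_of_nonneg (by positivity)]
    exact gs_sq_le t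
  rw [h1, integral_sub (slice_gs_integrable hf s) (h2.const_mul _), integral_const_mul,
    gs_sq_integral]
  unfold gg
  ring

theorem vv_orth (hu : Test u) (s : ℝ) : ∫ t, vv u (s, t) * gs t = 0 := orth_aux hu s

theorem vs_orth (hu : Test u) (s : ℝ) : ∫ t, vs u (s, t) * gs t = 0 := by
  have h1 := orth_aux hu.test_d1 s
  rw [← gg_deriv_eq hu] at h1
  exact h1

end LeakyWire
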